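import Pool.Agent.Y166.MC.Stm
import Pool.Agent.Y166.SM.GenB

/-!
# The lifting of the second family: charts, specialisation, parameters
-/

set_option autoImplicit false
set_option linter.unusedSectionVars false
set_option linter.deprecated false

namespace Pool.Agent.Y794.MC.Lift2

open MvPolynomial Pool.Agent.Y166.GM Pool.Agent.Y166.SM Pool.Agent.Y198.MC

section
variable {k : Type} [Field k]

theorem aeval_U0 {A : Type} [CommRing A] [Algebra k A] {r : ℕ} (c : Ch r → A) (i : Fin (r + 2)) :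
    aeval c (U0 (X : Ch r → MvPolynomial (Ch r) k) i) = U0 c i := by
  unfold U0
  refine Fin.cases ?_ (fun i => ?_) i
  · simp
  · refine Fin.cases ?_ (fun i => ?_) i
    · simp
    · simp

theorem aeval_V0 {A : Type} [CommRing A] [Algebra k A] {r : ℕ} (c : Ch r → A) (i : Fin (r + 2)) :
    aeval c (V0 (X : Ch r → MvPolynomial (Ch r) k) i) = V0 c i := by
  unfold V0
  refine Fin.cases ?_ (fun i => ?_) i
  · simp
  · refine Fin.cases ?_ (fun i => ?_) i
    · simp
    · simp

theorem aeval_vvY {A : Type} [CommRing A] [Algebra k A] {r : ℕ} (c : Ch r → A) (j : Co (r + 2)) :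
    aeval c (vvY k r j) =
      ptY (U0 c) (V0 c) ![1, c (.inr 0)] ![1, c (.inr 1), c (.inr 2)] j := by
  simp [vvY, ptY, wdg, vec, quad, aeval_U0, aeval_V0]

theorem map_ptY {A B : Type} [CommRing A] [CommRing B] (φ : A →+* B) {N : ℕ}
    (u v : Fin N → A) (x : Fin 2 → A) (q : Fin 3 → A) (j : Co N) :
    φ (ptY u v x q j) = ptY (φ ∘ u) (φ ∘ v) (φ ∘ x) (φ ∘ q) j := by
  simp [ptY, wdg, vec, quad]

theorem chart_eq (hch : Y198.MC.StmChart) [IsAlgClosed k] [CharZero k] {W : Type} [Field W] [Algebra k W]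
    {r : ℕ} (hr : 1 ≤ r) (u v : Fin (r + 2) → W) (x : Fin 2 → W) (q : Fin 3 → W)
    (h0 : ptY u v x q (j0 r) ≠ 0) (j : Co (r + 2)) :
    ptY u v x q j = ptY u v x q (j0 r) *
      aeval (fun i => ptY u v x q (rrY r i) / ptY u v x q (j0 r)) (vvY k r j) := by
  have : CharZero W := charZero_of_injective_algebraMap (algebraMap k W).injective
  have : CharZero (AlgebraicClosure W) :=
    charZero_of_injective_algebraMap (algebraMap W (AlgebraicClosure W)).injective
  set φ : W →+* AlgebraicClosure W := algebraMap W (AlgebraicClosure W) with hφ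
  have h0' : φ (ptY u v x q (j0 r)) ≠ 0 := (map_ne_zero φ).2 h0
  obtain ⟨p, hp⟩ := exists_rep (k := AlgebraicClosure W) (v := fun j => φ (ptY u v x q j))
    (fun h => h0' (congrFun h _))
  have hpY : p ∈ YY (AlgebraicClosure W) (r + 2) := ⟨φ ∘ u, φ ∘ v, φ ∘ x, φ ∘ q, by
    have : (fun j => φ (ptY u v x q j)) = ptY (φ ∘ u) (φ ∘ v) (φ ∘ x) (φ ∘ q) :=
      funext (map_ptY φ u v x q)
    rw [← this]; exact hp⟩
  have h1 := (hch (AlgebraicClosure W) r hr).2.eq p hpY _ hp h0' j
  have e1 : (fun i => φ (ptY u v x q (rrY r i)) / φ (ptY u v x q (j0 r))) =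
      φ ∘ (fun i => ptY u v x q (rrY r i) / ptY u v x q (j0 r)) := by
    funext i
    rw [Function.comp_apply, map_div₀]
  rw [e1] at h1
  set xs : Ch r → W := fun i => ptY u v x q (rrY r i) / ptY u v x q (j0 r) with hxs
  apply φ.injective
  rw [map_mul]
  refine h1.trans ?_
  congr 1
  rw [← aeval_eq_eval, aeval_vvY, aeval_vvY, map_ptY φ (U0 xs) (V0 xs)]
  have eU : U0 (φ ∘ xs) = φ ∘ U0 xs := by
    funext i
    unfold U0
    refine Fin.cases ?_ (fun i => ?_) i
    · simp
    · refine Fin.cases ?_ (fun i => ?_) i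
      · simp
      · simp
  have eV : V0 (φ ∘ xs) = φ ∘ V0 xs := by
    funext i
    unfold V0
    refine Fin.cases ?_ (fun i => ?_) i
    · simp
    · refine Fin.cases ?_ (fun i => ?_) i
      · simp
      · simp
  have e2 : (![1, (φ ∘ xs) (.inr 0)] : Fin 2 → _) = φ ∘ ![1, xs (.inr 0)] := by
    funext i
    fin_cases i <;> simp
  have e3 : (![1, (φ ∘ xs) (.inr 1), (φ ∘ xs) (.inr 2)] : Fin 3 → _) =
      φ ∘ ![1, xs (.inr 1), xs (.inr 2)] := by
    funext i
    fin_cases i <;> simp
  rw [eU, eV, e2, e3]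

/-- The symmetrisation of the coordinates of a point of `Y`. -/
theorem symm_ptY {A : Type} [CommRing A] {N : ℕ} (u v : Fin N → A) (x : Fin 2 → A)
    (q : Fin 3 → A) : symm (ptY u v x q) = ptX u v (mulc x q) := by
  funext t
  simp only [Y198.MC.symm, ptY, ptX, mulc, vec, quad, cub, Matrix.cons_val_zero, Matrix.cons_val_one,
    Matrix.cons_val]
  ring

theorem symm_smul {A : Type} [CommRing A] {N : ℕ} (a : A) (y : Co N → A) :
    symm (a • y) = a • symm y := by
  funext t
  simp only [Y198.MC.symm, Pi.smul_apply, smul_eq_mul]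
  ring

theorem mulc_eq {A : Type} [Field A] [CharZero A] (f : A) :
    mulc ![1, 0] ![f / 3, 0, 1] = ![f, 0, 1, 0] := by
  unfold mulc
  have h3 : (3 : A) ≠ 0 := by norm_num
  funext i
  fin_cases i
  · simp
    field_simp
  · simp
  · simp
  · simp

/-- The linear forms of the symmetrisation. -/
noncomputable def sF (k : Type) [Field k] (N : ℕ) (t : Co N) : MvPolynomial (Co N) k :=
  symm X t

theorem sF_homog (N : ℕ) (t : Co N) : (sF k N t).IsHomogeneous 1 := by
  unfold sF Y198.MC.symm
  exact ((isHomogeneous_X k _).add (isHomogeneous_X k _)).add (isHomogeneous_X k _)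

theorem aeval_sF {A : Type} [CommRing A] [Algebra k A] {N : ℕ} (y : Co N → A) (t : Co N) :
    aeval y (sF k N t) = symm y t := by
  simp [sF, Y198.MC.symm]

/-- `cov` is given by the symmetrisation. -/
theorem cov_rep {N : ℕ} (hN : 3 ≤ N) [IsAlgClosed k] [CharZero k] (hcov : StmCov)
    (z : PP k (Co N)) (hz : z ∈ YY k N) : Rep (cov k N z) (fun j => eval z.rep (sF k N j)) := by
  obtain ⟨u, v, x, q, hr⟩ := hz
  have h1 := (hcov k N hN).2.2.1 u v x q z hr
  obtain ⟨a, ha, he⟩ := hr.exists_smul (rep_rep z)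
  have h2 : (fun j => eval z.rep (sF k N j)) = a • ptX u v (mulc x q) := by
    rw [← symm_ptY, ← symm_smul, ← he]
    funext j
    rw [← aeval_eq_eval, aeval_sF]
  rw [h2]
  exact h1.smul ha

end

/-! ### Parameters of the curves -/

section
variable {A M : Type} [CommRing A]

theorem yP_coeffs {num : M → ℕ} (g : M → Polynomial A) (j : M) (hj : (g j).natDegree < num j) :
    yP (fun x : Ix num => (g x.1).coeff x.2) j = g j := by
  unfold yP
  rw [Fin.sum_univ_eq_sum_range (fun p => Polynomial.C ((g j).coeff p) * Polynomial.X ^ p) (num j)]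
  conv_rhs => rw [(g j).as_sum_range' _ hj]
  exact Finset.sum_congr rfl fun p _ => Polynomial.C_mul_X_pow_eq_monomial

theorem yP_natDegree {num : M → ℕ} (c : Ix num → A) (j : M) (b : ℕ) (hb : num j ≤ b + 1) :
    (yP c j).natDegree ≤ b := by
  unfold yP
  apply Polynomial.natDegree_sum_le_of_forall_le
  intro p _
  refine (Polynomial.natDegree_C_mul_X_pow_le _ _).trans ?_
  have := p.2
  omega

theorem map_yP {B : Type} [CommRing B] (φ : A →+* B) {num : M → ℕ} (c : Ix num → A) (j : M) :
    (yP c j).map φ = yP (φ ∘ c) j := by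
  unfold yP
  rw [Polynomial.map_sum]
  refine Finset.sum_congr rfl fun p _ => ?_
  simp

end

end Pool.Agent.Y794.MC.Lift2
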