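import Pool.Agent.Y794.MC.Lift2B

/-!
# The lifting of the second family
-/

set_option autoImplicit false
set_option linter.unusedSectionVars false
set_option linter.deprecated false

namespace Pool.Agent.Y794.MC.Lift2

open MvPolynomial Pool.Agent.Y166.GM Pool.Agent.Y166.SM Pool.Agent.Y198.MC

section
variable {k : Type} [Field k] {r m n : ℕ}

theorem aeval_ptX {A : Type} [CommRing A] [Algebra k A] {M : Type} {N : ℕ} (y : M → A)
    (U V : Fin N → MvPolynomial M k) (C : Fin 4 → MvPolynomial M k) (t : Co N) :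
    aeval y (ptX U V C t) =
      ptX (fun i => aeval y (U i)) (fun i => aeval y (V i)) (fun i => aeval y (C i)) t := by
  simp [ptX, wdg, cub]

theorem aeval_CC {A : Type} [CommRing A] [Algebra k A] (y : MM r → A) :
    (fun i => aeval y (CC k r i)) = ![y (.inr (.inr ())), 0, 1, 0] := by
  funext i
  fin_cases i <;> simp [CC]

/-- The degree of the tensor. -/
theorem cub_natDegree (h : m ≤ n) (u v : Fin (r + 2) → Polynomial k) (f : Polynomial k)
    (hu : ∀ i, (u i).natDegree ≤ m) (hv : ∀ i, (v i).natDegree ≤ n)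
    (hf : f.natDegree ≤ 2 * (n - m)) (t : Ta (r + 2)) :
    (cub u v ![f, 0, 1, 0] t).natDegree ≤ m + 2 * n := by
  have h1 : cub u v ![f, 0, 1, 0] t = f * (u t.1 * u t.2.1 * u t.2.2) +
      (u t.1 * v t.2.1 * v t.2.2 + v t.1 * u t.2.1 * v t.2.2 + v t.1 * v t.2.1 * u t.2.2) := by
    simp [cub]
  rw [h1]
  have hm : ∀ (p q s : Polynomial k) (a b c : ℕ), p.natDegree ≤ a → q.natDegree ≤ b →
      s.natDegree ≤ c → (p * q * s).natDegree ≤ a + b + c := by
    intro p q s a b c hp hq hs
    exact Polynomial.natDegree_mul_le.trans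
      (add_le_add (Polynomial.natDegree_mul_le.trans (add_le_add hp hq)) hs)
  refine (Polynomial.natDegree_add_le _ _).trans (max_le ?_ ?_)
  · refine (Polynomial.natDegree_mul_le.trans
      (add_le_add hf (hm _ _ _ _ _ _ (hu _) (hu _) (hu _)))).trans ?_
    omega
  · refine (Polynomial.natDegree_add_le _ _).trans (max_le ?_ ?_)
    · refine (Polynomial.natDegree_add_le _ _).trans (max_le ?_ ?_)
      · refine (hm _ _ _ _ _ _ (hu _) (hv _) (hv _)).trans ?_
        omega
      · refine (hm _ _ _ _ _ _ (hv _) (hu _) (hv _)).trans ?_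
        omega
    · refine (hm _ _ _ _ _ _ (hv _) (hv _) (hu _)).trans ?_
      omega

theorem natDegree_UV (c : Ix (nm r m n) → k) :
    (fun i => aeval (yP c) (UU k r i)) = (fun i => yP c (.inl i)) ∧
    (fun i => aeval (yP c) (VV k r i)) = (fun i => yP c (.inr (.inl i))) ∧
    (fun i => aeval (yP c) (CC k r i)) = ![yP c (.inr (.inr ())), 0, 1, 0] := by
  refine ⟨?_, ?_, aeval_CC (yP c)⟩
  · funext i
    simp [UU]
  · funext i
    simp [VV]

theorem cvF_eq (c : Ix (nm r m n) → k) :
    cvF (m + n) (m + 2 * n) (UU k r) (VV k r) (CC k r) c =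
      cv (m + n) (m + 2 * n) (fun i => yP c (.inl i)) (fun i => yP c (.inr (.inl i)))
        ![yP c (.inr (.inr ())), 0, 1, 0] := by
  unfold cvF
  rw [(natDegree_UV c).1, (natDegree_UV c).2.1, (natDegree_UV c).2.2]

/-- The bounds of the degrees. -/
theorem bd_of (h : m ≤ n) (u v : Fin (r + 2) → Polynomial k) (f : Polynomial k)
    (hu : ∀ i, (u i).natDegree ≤ m) (hv : ∀ i, (v i).natDegree ≤ n)
    (hf : f.natDegree ≤ 2 * (n - m)) : Bd m n (m + 2 * n) u v ![f, 0, 1, 0] := by
  refine ⟨hu, hv, ?_⟩
  intro i hi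
  fin_cases i
  · show f.natDegree + ((3 - 0) * m + 0 * n) ≤ _
    omega
  · exact absurd rfl hi
  · show (1 : Polynomial k).natDegree + ((3 - 2) * m + 2 * n) ≤ _
    rw [Polynomial.natDegree_one]
    omega
  · exact absurd rfl hi

/-- The curve is well defined. -/
theorem gd_of (u v : Fin (r + 2) → Polynomial k) (f : Polynomial k)
    (h1 : ∀ t : k, wdg (fun i => (u i).eval t) (fun i => (v i).eval t) ≠ 0)
    (h2 : wdg (fun i => (u i).coeff m) (fun i => (v i).coeff n) ≠ 0) :
    Gd m n (m + 2 * n) u v ![f, 0, 1, 0] := by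
  refine ⟨h1, h2, fun t => ⟨2, ?_⟩, 2, ?_, ?_⟩
  · show (1 : Polynomial k).eval t ≠ 0
    rw [Polynomial.eval_one]
    exact one_ne_zero
  · show (3 - 2) * m + 2 * n ≤ _
    omega
  · show (1 : Polynomial k).coeff (m + 2 * n - ((3 - 2) * m + 2 * n)) ≠ 0
    have : m + 2 * n - ((3 - 2) * m + 2 * n) = 0 := by omega
    rw [this, Polynomial.coeff_one_zero]
    exact one_ne_zero

/-- The points of the second family have parameters. -/
theorem str2_param (h : m ≤ n)
    (γ : PP k ((Sg (r + 2) × Fin (m + n + 1)) × (Ta (r + 2) × Fin (m + 2 * n + 1))))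
    (hγ : γ ∈ Str2 k (r + 2) m n) :
    γ ∈ Strat k (r + 2) (m + n) (m + 2 * n) m n ∧ ∃ c : Ix (nm r m n) → k,
      Rep γ (cvF (m + n) (m + 2 * n) (UU k r) (VV k r) (CC k r) c) := by
  obtain ⟨u, v, f, hB, hG, hR⟩ := hγ
  refine ⟨⟨u, v, _, hB, hG, hR⟩, ?_⟩
  set g : MM r → Polynomial k := Sum.elim u (Sum.elim v fun _ => f) with hg
  refine ⟨fun x => (g x.1).coeff x.2, ?_⟩
  have hd : ∀ j, (g j).natDegree < nm r m n j := by
    rintro (i | i | i)
    · exact Nat.lt_succ_of_le (hB.hu i)
    · exact Nat.lt_succ_of_le (hB.hv i)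
    · show f.natDegree < 2 * (n - m) + 1
      by_cases hf : f = 0
      · rw [hf, Polynomial.natDegree_zero]
        exact Nat.succ_pos _
      · have h1 := hB.hc 0 hf
        have h2 : f.natDegree + ((3 - 0) * m + 0 * n) ≤ m + 2 * n := h1
        omega
  rw [cvF_eq]
  have e1 : ∀ j, yP (fun x : Ix (nm r m n) => (g x.1).coeff x.2) j = g j := fun j =>
    yP_coeffs g j (hd j)
  simp only [e1]
  exact hR

/-! ### Fields -/

theorem aeval_mem {W ι : Type} [Field W] [Algebra k W] (w : ι → W) (Q : MvPolynomial ι k) :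
    aeval w Q ∈ IntermediateField.adjoin k (Set.range w) := by
  apply IntermediateField.algebra_adjoin_le_adjoin
  rw [Algebra.adjoin_range_eq_range_aeval]
  exact ⟨Q, rfl⟩

theorem isAlgebraic_of_le {W : Type} [Field W] [Algebra k W] {K L : IntermediateField k W}
    (h : K ≤ L) {θ : W} (hθ : IsAlgebraic K θ) : IsAlgebraic L θ := by
  let _ : Algebra K L := (IntermediateField.inclusion h).toAlgebra
  have : IsScalarTower K L W := IsScalarTower.of_algebraMap_eq fun x => rfl
  exact hθ.extendScalars (algebraMap K L).injective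

theorem ratio_mem {W ι : Type} [Field W] [Algebra k W] (z : ι → W) (i₀ : ι) (h0 : z i₀ ≠ 0)
    {l : ℕ} {P Q : MvPolynomial ι k} (hP : P.IsHomogeneous l) (hQ : Q.IsHomogeneous l) :
    aeval z P / aeval z Q ∈ IntermediateField.adjoin k (Set.range fun i => z i / z i₀) := by
  have h1 : ∀ R : MvPolynomial ι k, R.IsHomogeneous l →
      aeval z R = z i₀ ^ l * aeval (fun i => z i / z i₀) R := by
    intro R hR
    rw [← aeval_smul_homog hR]
    congr 2
    funext i
    rw [mul_div_cancel₀ _ h0]
  rw [h1 P hP, h1 Q hQ, mul_div_mul_left _ _ (pow_ne_zero _ h0)]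
  exact div_mem (aeval_mem _ _) (aeval_mem _ _)

end

/-- C10 -/
theorem done (hMem : StmMem) (hDen : StmDense2) (hGen : Pool.Agent.Y166.MC.StmGenR)
    (hBir : StmBir) (hAlg : StmAlg2) (hDeg : StmDeg3) (hCh : Y198.MC.StmChart) (hCov : StmCov)
    (hVarY : StmVarY) : StmLift2 := by
  intro k _ _ _ N m n hN hm hmn n₁ Y hY f hf hfX hfin e₁ Ns hNs hdense
  obtain ⟨r, rfl⟩ : ∃ r, N = r + 2 := ⟨N - 2, by omega⟩
  have hr : 1 ≤ r := by omega
  have hle : m ≤ n := hmn.le
  have : Infinite k := IsAlgClosed.instInfinite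
  -- the values at a generic point
  have hval : ∀ (W : Type) [Field W] [Algebra k W] (y : MM r → W) (t : Co (r + 2)),
      aeval y (ptX (UU k r) (VV k r) (CC k r) t) =
        ptX (fun i => y (.inl i)) (fun i => y (.inr (.inl i)))
          (mulc ![1, 0] ![y (.inr (.inr ())) / 3, 0, 1]) t := by
    intro W _ _ y t
    have : CharZero W := charZero_of_injective_algebraMap (algebraMap k W).injective
    rw [aeval_ptX, aeval_CC, mulc_eq]
    simp [UU, VV]
  have helim : ∀ (W : Type) [Field W] [Algebra k W] (y : MM r → W),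
      (Sum.elim (fun i => y (.inl i)) (Sum.elim (fun i => y (.inr (.inl i)))
        fun _ : Unit => y (.inr (.inr ()))) : MM r → W) = y := by
    intro W _ _ y
    funext j
    rcases j with i | i | i <;> rfl
  -- the independence
  have hind : ∀ (W : Type) [Field W] [Algebra k W] (y : MM r → W), AlgebraicIndependent k y →
      AlgebraicIndependent k (fun i => aeval y (ptX (UU k r) (VV k r) (CC k r) (rrX r i)) /
        aeval y (ptX (UU k r) (VV k r) (CC k r) (Y198.MC.j0 r))) := by
    intro W _ _ y hy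
    obtain ⟨a1, a2, -⟩ := hAlg k W r (fun i => y (.inl i)) (fun i => y (.inr (.inl i)))
      (y (.inr (.inr ()))) (by rw [helim]; exact hy)
    obtain ⟨d1, -, -⟩ := hDeg k W r _ _ _ _ a1 a2
    simp only [hval]
    exact d1
  -- the existence of parameters
  obtain ⟨P₀, hP₀, hP₀'⟩ := exists_P0 (k := k) (r := r) (m := m) (n := n) hr hm
  have hB : ∀ c : Ix (nm r m n) → k, Bd m n (m + 2 * n) (fun i => yP c (.inl i))
      (fun i => yP c (.inr (.inl i))) ![yP c (.inr (.inr ())), 0, 1, 0] := fun c =>
    bd_of hle _ _ _ (yP_u c) (yP_v c) (yP_f c)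
  obtain ⟨W, _, _, y, z, mF, F, mP, P, i₀, hyi, hF, hP, hrep, hz, hzi, hzP, hz0, hzF, hprop,
    hratio, halg, hfield⟩ := hGen k r (m + n) (m + 2 * n) (MM r) (nm r m n) hr
      (by
        rintro (i | i | i)
        · show 2 ≤ m + 1
          omega
        · show 2 ≤ n + 1
          omega
        · show 2 ≤ 2 * (n - m) + 1
          omega)
      (UU k r) (VV k r) (CC k r) (Strat k (r + 2) (m + n) (m + 2 * n) m n)
      (by
        intro c s
        rw [(natDegree_UV c).1, (natDegree_UV c).2.1]
        exact wp_natDegree c s)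
      (by
        intro c t
        rw [(natDegree_UV c).1, (natDegree_UV c).2.1, (natDegree_UV c).2.2]
        exact cub_natDegree hle _ _ _ (yP_u c) (yP_v c) (yP_f c) t)
      (hMem k (r + 2) (m + n) (m + 2 * n) m n rfl).1
      ((hDen k (r + 2) m n hN hmn).trans (closure_mono fun γ hγ => str2_param hle γ hγ))
      (by
        refine ⟨P₀, hP₀, fun c hc => ?_⟩
        obtain ⟨h1, h2⟩ := hP₀' c hc
        have hG := gd_of (k := k) (m := m) (n := n) _ _ (yP c (.inr (.inr ()))) h1 h2
        obtain ⟨γ, hγ⟩ := (hMem k (r + 2) (m + n) (m + 2 * n) m n rfl).2 _ _ _ (hB c) hG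
        refine ⟨γ, ⟨_, _, _, hB c, hG, hγ⟩, ?_⟩
        rw [cvF_eq]
        exact hγ)
      (by
        intro h
        have h1 := congrArg (eval (Sum.elim (fun i : Fin (r + 2) => if (i : ℕ) = 0 then (1 : k) else 0)
          (Sum.elim (fun i : Fin (r + 2) => if (i : ℕ) = 1 then (1 : k) else 0)
            fun _ : Unit => (1 : k)))) h
        simp [ptX, wdg, cub, UU, VV, CC, Y198.MC.j0] at h1)
      hind n₁ Y hY f hf hfX hfin e₁ Ns hNs
      (by
        intro l Q hQ hvan γ hγ
        refine (mem_closure_iff' _ γ).1 (hdense hγ) l Q hQ ?_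
        rintro q ⟨hq1, hq2⟩
        exact hvan q hq1 hq2)
  -- the points
  have : CharZero W := charZero_of_injective_algebraMap (algebraMap k W).injective
  obtain ⟨a1, a2, a3⟩ := hAlg k W r (fun i => y (.inl i)) (fun i => y (.inr (.inl i)))
    (y (.inr (.inr ()))) (by rw [helim]; exact hyi)
  obtain ⟨d1, d2, d3⟩ := hDeg k W r _ _ _ _ a1 a2
  have hce := chart_eq (k := k) hCh hr _ _ _ _ a2
  have hfe : (fun i => aeval y (ptX (UU k r) (VV k r) (CC k r) (rrX r i)) /
      aeval y (ptX (UU k r) (VV k r) (CC k r) (Y198.MC.j0 r))) =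
      fun i => ptX (fun i => y (.inl i)) (fun i => y (.inr (.inl i)))
          (mulc ![1, 0] ![y (.inr (.inr ())) / 3, 0, 1]) (rrX r i) /
        ptX (fun i => y (.inl i)) (fun i => y (.inr (.inl i)))
          (mulc ![1, 0] ![y (.inr (.inr ())) / 3, 0, 1]) (Y198.MC.j0 r) := by
    funext i
    rw [hval, hval]
  rw [hfe] at halg
  simp only [hval] at hprop hratio
  rw [helim] at a3
  have hsy := symm_ptY (fun i => y (.inl i)) (fun i => y (.inr (.inl i))) ![1, 0]
    ![y (.inr (.inr ())) / 3, 0, 1]
  set pY : Co (r + 2) → W := ptY (fun i => y (.inl i)) (fun i => y (.inr (.inl i))) ![1, 0]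
    ![y (.inr (.inr ())) / 3, 0, 1] with hpY
  set pX : Co (r + 2) → W := ptX (fun i => y (.inl i)) (fun i => y (.inr (.inl i)))
    (mulc ![1, 0] ![y (.inr (.inr ())) / 3, 0, 1]) with hpX
  set xX : Ch r → W := fun i => pX (rrX r i) / pX (Y198.MC.j0 r) with hxX
  set xY : Ch r → W := fun i => pY (rrY r i) / pY (Y198.MC.j0 r) with hxY
  set E : IntermediateField k W := IntermediateField.adjoin k (Set.range fun i => z i / z i₀)
    with hE
  -- the coordinates of the point of `Y`
  have hpYm : ∀ j, pY j / pY (Y198.MC.j0 r) ∈ IntermediateField.adjoin k (Set.range xY) := by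
    intro j
    rw [hce j, mul_comm, mul_div_assoc, div_self a2, mul_one]
    exact aeval_mem _ _
  have hXY : IntermediateField.adjoin k (Set.range xX) ≤
      IntermediateField.adjoin k (Set.range xY) := by
    rw [IntermediateField.adjoin_le_iff]
    rintro _ ⟨i, rfl⟩
    have h1 : ∀ t, pX t / pY (Y198.MC.j0 r) ∈ IntermediateField.adjoin k (Set.range xY) := by
      intro t
      rw [← congrFun hsy t]
      unfold Y198.MC.symm
      rw [add_div, add_div]
      exact add_mem (add_mem (hpYm _) (hpYm _)) (hpYm _)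
    have h2 : xX i = (pX (rrX r i) / pY (Y198.MC.j0 r)) /
        (pX (Y198.MC.j0 r) / pY (Y198.MC.j0 r)) := by
      rw [hxX, div_div_div_cancel_right₀ a2]
    rw [h2]
    exact div_mem (h1 _) (h1 _)
  have hXE : IntermediateField.adjoin k (Set.range xX) ≤ E := by
    rw [IntermediateField.adjoin_le_iff]
    rintro _ ⟨i, rfl⟩
    have h1 : xX i = aeval z (F (rrX r i)) / aeval z (F (Y198.MC.j0 r)) := (hratio i).symm
    rw [h1]
    exact ratio_mem z i₀ hz0 (hF _) (hF _)
  have hEY : E ≤ IntermediateField.adjoin k (Set.range xY) := by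
    rw [hE, IntermediateField.adjoin_le_iff]
    rintro _ ⟨i, rfl⟩
    exact a3 _ (hfield i) (isAlgebraic_of_le hXY (halg i))
  rcases d3 E hXE hEY with hE1 | hE1
  · left
    refine FLb (k := k) (W := W) ⟨Y198.MC.j0 r, rrX r, vvX k r, (hCh k r hr).1.eq⟩ hY.1 hfX F hF P
      hP hrep i₀ z hz hzP hz0 hzF ?_ ?_ hzi
    · have h1 : (fun i => aeval z (F (rrX r i)) / aeval z (F (Y198.MC.j0 r))) = xX := funext hratio
      show AlgebraicIndependent k
        (fun i => aeval z (F (rrX r i)) / aeval z (F (Y198.MC.j0 r)))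
      rw [h1]
      exact d1
    · intro i
      have h1 : (fun i => aeval z (F (rrX r i)) / aeval z (F (Y198.MC.j0 r))) = xX := funext hratio
      show z i / z i₀ ∈ IntermediateField.adjoin k
        (Set.range (fun i => aeval z (F (rrX r i)) / aeval z (F (Y198.MC.j0 r))))
      rw [h1, ← hE1]
      exact IntermediateField.subset_adjoin _ _ ⟨i, rfl⟩
  · right
    have hYY := (hVarY k (r + 2) hN).1
    have hchY := (hCh k r hr).2
    have hev : ∀ (l : ℕ) (Q : MvPolynomial (Co (r + 2)) k), Q.IsHomogeneous l →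
        aeval pY Q = pY (Y198.MC.j0 r) ^ l * aeval xY (aeval (vvY k r) Q) := by
      intro l Q hQ
      have h1 : pY = fun j => pY (Y198.MC.j0 r) * aeval xY (vvY k r j) := funext hce
      conv_lhs => rw [h1]
      rw [aeval_smul_homog hQ, aeval_aeval]
    refine hBir k (Fin (n₁ + 1)) (Co (r + 2)) (Co (r + 2)) W Y (YY k (r + 2)) hY.1 hYY.1 f
      (cov k (r + 2)) mF F hF mP P hP hrep 1 (sF k (r + 2)) (sF_homog _) 0 1
      (isHomogeneous_one _ _) (fun w hw _ => cov_rep hN hCov w hw) i₀ z (Y198.MC.j0 r) pY hz0 a2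
      hzP (by rw [map_one]; exact one_ne_zero) ?_ ?_ ?_ ?_ ?_
    · exact fun l Q hQ => ⟨fun h => hzi l Q hQ h, fun h => hz Q h⟩
    · intro l Q hQ
      constructor
      · intro h
        rw [hev l Q hQ] at h
        have h1 : aeval (vvY k r) Q = 0 := by
          rcases mul_eq_zero.1 h with h2 | h2
          · exact absurd h2 (pow_ne_zero _ a2)
          · exact a1 (by rw [map_zero]; exact h2)
        have hprime := coneIdeal_prime hYY.2
        have h2 : X (Y198.MC.j0 r) * Q ∈ coneIdeal (YY k (r + 2)) := by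
          intro w hw v hv
          rw [map_mul, eval_X]
          by_cases hv0 : v (Y198.MC.j0 r) = 0
          · rw [hv0, zero_mul]
          · have h3 := hchY.eq w hw v hv hv0
            have h4 : eval v Q = v (Y198.MC.j0 r) ^ l *
                aeval (fun i => v (rrY r i) / v (Y198.MC.j0 r)) (aeval (vvY k r) Q) := by
              rw [← aeval_eq_eval]
              have h5 : v = fun j => v (Y198.MC.j0 r) *
                  aeval (fun i => v (rrY r i) / v (Y198.MC.j0 r)) (vvY k r j) := by
                funext j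
                rw [aeval_eq_eval]
                exact h3 j
              conv_lhs => rw [h5]
              rw [aeval_smul_homog hQ, aeval_aeval]
            rw [h4, h1, map_zero, mul_zero, mul_zero]
        rcases hprime.mem_or_mem h2 with h3 | h3
        · exfalso
          obtain ⟨w, hw, hwr⟩ := hchY.mem 0
          have h4 := h3 w hw _ hwr
          rw [eval_X, hchY.one, map_one] at h4
          exact one_ne_zero h4
        · exact h3
      · intro h
        rw [hev l Q hQ]
        have h1 : aeval (vvY k r) Q = 0 := by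
          apply MvPolynomial.funext
          intro c
          obtain ⟨w, hw, hwr⟩ := hchY.mem c
          have h4 := h w hw _ hwr
          rw [← aeval_eq_eval, aeval_aeval, map_zero]
          rw [← aeval_eq_eval] at h4
          simp only [aeval_eq_eval] at h4 ⊢
          exact h4
        rw [h1, map_zero, mul_zero]
    · intro i
      have h1 : z i / z i₀ ∈ E := IntermediateField.subset_adjoin _ _ ⟨i, rfl⟩
      rw [hE1] at h1
      have h2 : IntermediateField.adjoin k (Set.range xY) ≤
          IntermediateField.adjoin k (Set.range fun j => pY j / pY (Y198.MC.j0 r)) := by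
        rw [IntermediateField.adjoin_le_iff]
        rintro _ ⟨i, rfl⟩
        exact IntermediateField.subset_adjoin _ _ ⟨rrY r i, rfl⟩
      exact h2 h1
    · intro i
      have h1 := hpYm i
      rw [← hE1] at h1
      exact h1
    · intro a b
      have h1 : ∀ t, aeval pY (sF k (r + 2) t) = pX t := by
        intro t
        rw [aeval_sF, hsy]
      rw [h1, h1]
      exact hprop a b

end Pool.Agent.Y794.MC.Lift2
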