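import Pool.Agent.Y794.MC.Lift2A

/-!
# The lifting of the second family: the parameters of the family
-/

set_option autoImplicit false
set_option linter.unusedSectionVars false
set_option linter.deprecated false

namespace Pool.Agent.Y794.MC.Lift2

open MvPolynomial Pool.Agent.Y166.GM Pool.Agent.Y166.SM Pool.Agent.Y198.MC

/-- The indices of the parameters. -/
abbrev MM (r : ℕ) : Type := Fin (r + 2) ⊕ (Fin (r + 2) ⊕ Unit)

/-- The numbers of the coefficients. -/
def nm (r m n : ℕ) : MM r → ℕ
  | .inl _ => m + 1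
  | .inr (.inl _) => n + 1
  | .inr (.inr _) => 2 * (n - m) + 1

section
variable (k : Type) [Field k] (r : ℕ)

noncomputable def UU (i : Fin (r + 2)) : MvPolynomial (MM r) k := X (.inl i)
noncomputable def VV (i : Fin (r + 2)) : MvPolynomial (MM r) k := X (.inr (.inl i))
noncomputable def CC : Fin 4 → MvPolynomial (MM r) k := ![X (.inr (.inr ())), 0, 1, 0]

end

section
variable {k : Type} [Field k] {r m n : ℕ}

/-- The Plücker coordinates of the curve with given parameters. -/
noncomputable def wp {A : Type} [CommRing A] (c : Ix (nm r m n) → A) (s : Sg (r + 2)) :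
    Polynomial A :=
  wdg (fun i => yP c (.inl i)) (fun i => yP c (.inr (.inl i))) s

theorem yP_u {A : Type} [CommRing A] (c : Ix (nm r m n) → A) (i : Fin (r + 2)) :
    (yP c (.inl i)).natDegree ≤ m := yP_natDegree c _ m le_rfl

theorem yP_v {A : Type} [CommRing A] (c : Ix (nm r m n) → A) (i : Fin (r + 2)) :
    (yP c (.inr (.inl i))).natDegree ≤ n := yP_natDegree c _ n le_rfl

theorem yP_f {A : Type} [CommRing A] (c : Ix (nm r m n) → A) :
    (yP c (.inr (.inr ()))).natDegree ≤ 2 * (n - m) := yP_natDegree c _ _ le_rfl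

theorem wp_natDegree {A : Type} [CommRing A] (c : Ix (nm r m n) → A) (s : Sg (r + 2)) :
    (wp c s).natDegree ≤ m + n := by
  unfold wp wdg
  refine (Polynomial.natDegree_sub_le _ _).trans (max_le ?_ ?_)
  · exact Polynomial.natDegree_mul_le.trans (add_le_add (yP_u c _) (yP_v c _))
  · refine Polynomial.natDegree_mul_le.trans ?_
    rw [add_comm m n]
    exact add_le_add (yP_v c _) (yP_u c _)

theorem wp_coeff {A : Type} [CommRing A] (c : Ix (nm r m n) → A) (s : Sg (r + 2)) :
    (wp c s).coeff (m + n) =
      wdg (fun i => (yP c (.inl i)).coeff m) (fun i => (yP c (.inr (.inl i))).coeff n) s := by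
  unfold wp wdg
  rw [Polynomial.coeff_sub, Polynomial.coeff_mul_add_eq_of_natDegree_le (yP_u c _) (yP_v c _)]
  congr 1
  rw [add_comm m n, Polynomial.coeff_mul_add_eq_of_natDegree_le (yP_v c _) (yP_u c _)]

theorem wp_eval {A : Type} [CommRing A] (c : Ix (nm r m n) → A) (s : Sg (r + 2)) (t : A) :
    (wp c s).eval t =
      wdg (fun i => (yP c (.inl i)).eval t) (fun i => (yP c (.inr (.inl i))).eval t) s := by
  unfold wp wdg
  rw [Polynomial.eval_sub, Polynomial.eval_mul, Polynomial.eval_mul]

theorem wp_map {A B : Type} [CommRing A] [CommRing B] (φ : A →+* B) (c : Ix (nm r m n) → A)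
    (s : Sg (r + 2)) : (wp c s).map φ = wp (φ ∘ c) s := by
  unfold wp wdg
  rw [Polynomial.map_sub, Polynomial.map_mul, Polynomial.map_mul, map_yP, map_yP, map_yP, map_yP]

/-- The polynomials of the special member. -/
noncomputable def gst (k : Type) [Field k] (r m n : ℕ) : MM r → Polynomial k
  | .inl i => if (i : ℕ) = 0 then 1 else if (i : ℕ) = 1 then Polynomial.X ^ m else 0
  | .inr (.inl i) => if (i : ℕ) = 1 then 1 else if (i : ℕ) = 2 then Polynomial.X ^ n else 0
  | .inr (.inr _) => 0

theorem gst_natDegree (j : MM r) : (gst k r m n j).natDegree < nm r m n j := by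
  rcases j with i | i | i
  · show (gst k r m n (.inl i)).natDegree < m + 1
    unfold gst
    dsimp only
    split_ifs <;> simp
  · show (gst k r m n (.inr (.inl i))).natDegree < n + 1
    unfold gst
    dsimp only
    split_ifs <;> simp
  · show (gst k r m n (.inr (.inr i))).natDegree < 2 * (n - m) + 1
    unfold gst
    simp

theorem exists_P0 (hr : 1 ≤ r) (hm : 1 ≤ m) :
    ∃ P₀ : MvPolynomial (Ix (nm r m n)) k, P₀ ≠ 0 ∧ ∀ c : Ix (nm r m n) → k, eval c P₀ ≠ 0 →
      (∀ t : k, wdg (fun i => (yP c (.inl i)).eval t)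
        (fun i => (yP c (.inr (.inl i))).eval t) ≠ 0) ∧
      wdg (fun i => (yP c (.inl i)).coeff m) (fun i => (yP c (.inr (.inl i))).coeff n) ≠ 0 := by
  let i0 : Fin (r + 2) := ⟨0, by omega⟩
  let i1 : Fin (r + 2) := ⟨1, by omega⟩
  let i2 : Fin (r + 2) := ⟨2, by omega⟩
  set P₀ : MvPolynomial (Ix (nm r m n)) k :=
    (wp (X : Ix (nm r m n) → MvPolynomial (Ix (nm r m n)) k) (i0, i1)).resultant
      (wp X (i1, i2)) (m + n) (m + n) with hP₀
  have hev : ∀ c : Ix (nm r m n) → k, eval c P₀ =
      (wp c (i0, i1)).resultant (wp c (i1, i2)) (m + n) (m + n) := by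
    intro c
    rw [hP₀, ← Polynomial.resultant_map_map, wp_map, wp_map]
    have : (eval c : MvPolynomial (Ix (nm r m n)) k →+* k) ∘ X = c := by
      funext x
      simp
    rw [this]
  refine ⟨P₀, ?_, ?_⟩
  · intro h0
    have h1 := hev (fun x => (gst k r m n x.1).coeff x.2)
    rw [h0, map_zero] at h1
    have h2 : ∀ s, wp (fun x : Ix (nm r m n) => (gst k r m n x.1).coeff x.2) s =
        wdg (fun i => gst k r m n (.inl i)) (fun i => gst k r m n (.inr (.inl i))) s := by
      intro s
      unfold wp
      simp only [yP_coeffs _ _ (gst_natDegree _)]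
    rw [h2, h2] at h1
    have h3 : wdg (fun i => gst k r m n (.inl i)) (fun i => gst k r m n (.inr (.inl i))) (i0, i1) =
        Polynomial.C 1 := by
      simp [wdg, gst, i0, i1]
    have h4 : wdg (fun i => gst k r m n (.inl i)) (fun i => gst k r m n (.inr (.inl i))) (i1, i2) =
        Polynomial.X ^ (m + n) := by
      simp [wdg, gst, i1, i2, pow_add]
    rw [h3, h4, Polynomial.resultant_C_left] at h1
    simp at h1
    exact pow_ne_zero _ (neg_ne_zero.2 one_ne_zero) h1.symm
  · intro c hc
    rw [hev] at hc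
    constructor
    · intro t h
      obtain ⟨p, q, _, _, hpq⟩ := Polynomial.exists_mul_add_mul_eq_C_resultant
        (wp c (i0, i1)) (wp c (i1, i2)) (wp_natDegree c _) (wp_natDegree c _)
        (Or.inl (by omega : m + n ≠ 0))
      have h1 := congrArg (Polynomial.eval t) hpq
      rw [Polynomial.eval_add, Polynomial.eval_mul, Polynomial.eval_mul, wp_eval, wp_eval, h,
        Pi.zero_apply, Pi.zero_apply, zero_mul, zero_mul, add_zero, Polynomial.eval_C] at h1
      exact hc h1.symm
    · intro h
      apply hc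
      have h1 : ∀ s, (wp c s).natDegree < m + n := by
        intro s
        refine lt_of_le_of_ne (wp_natDegree c s) ?_
        intro h2
        have h3 := wp_coeff c s
        rw [h, Pi.zero_apply, ← h2] at h3
        have h4 : wp c s = 0 := Polynomial.leadingCoeff_eq_zero.1 h3
        rw [h4, Polynomial.natDegree_zero] at h2
        omega
      exact Polynomial.resultant_eq_zero_of_lt_lt _ _ _ _ (h1 _) (h1 _)

end

end Pool.Agent.Y794.MC.Lift2
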